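import Mathlib
import Pool.Agent.Q11.AxBlock

set_option autoImplicit false

namespace Pool.Agent.Results.MP_89b943_al.DecomposableBlock

universe u v

/-- A fusion law over `F`: a set `carrier ⊆ F` with `1 ∈ carrier` and a map
`op : carrier × carrier → 2^carrier`. -/
structure FusionLaw (F : Type u) [Field F] where
  /-- the set of the fusion law -/
  carrier : Set F
  one_mem : 1 ∈ carrier
  /-- the product of the fusion law -/
  op : F → F → Set F
  op_subset : ∀ l ∈ carrier, ∀ m ∈ carrier, op l m ⊆ carrier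

section defs

variable {F : Type u} [Field F] {A : Type v} [NonUnitalNonAssocCommRing A] [Module F A]
  [IsScalarTower F A A] [SMulCommClass F A A]

/-- The eigenspace `A_l(a) = {u : a u = l u}`. -/
def eig (a : A) (l : F) : Submodule F A where
  carrier := {u | a * u = l • u}
  zero_mem' := by simp
  add_mem' := by
    intro x y hx hy
    show a * (x + y) = l • (x + y)
    rw [mul_add, smul_add, hx, hy]
  smul_mem' := by
    intro c x hx
    show a * (c • x) = l • (c • x)
    rw [mul_smul_comm, hx, smul_comm]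

/-- `A_S(a)`, the sum of the eigenspaces `A_l(a)` with `l ∈ S`. -/
def eigSum (a : A) (S : Set F) : Submodule F A := ⨆ l ∈ S, eig a l

/-- `a` is a (nonzero) axis for the fusion law. -/
def IsAxis (L : FusionLaw F) (a : A) : Prop :=
  a ≠ 0 ∧ a * a = a ∧ eigSum a L.carrier = ⊤ ∧
    ∀ l ∈ L.carrier, ∀ m ∈ L.carrier, ∀ x ∈ eig a l, ∀ y ∈ eig a m, x * y ∈ eigSum a (L.op l m)

/-- `A_1(a) = F a`. -/
def IsPrimitive (F : Type u) [Field F] [Module F A] [IsScalarTower F A A] [SMulCommClass F A A]
    (a : A) : Prop := eig a (1 : F) = Submodule.span F {a}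

/-- `(A, X)` is a primitive axial algebra for the fusion law `L`. -/
def IsPrimitiveAxialAlgebra (L : FusionLaw F) (X : Set A) : Prop :=
  (∀ a ∈ X, IsAxis L a ∧ IsPrimitive F a) ∧ NonUnitalAlgebra.adjoin F X = ⊤

/-- `J` is an ideal of the subalgebra (in particular ideal of `A`) `I`. -/
def IsIdealIn (I J : Submodule F A) : Prop := J ≤ I ∧ ∀ x ∈ I, ∀ y ∈ J, x * y ∈ J

/-- The block `I_a`: the smallest ideal of `A` containing `a`. -/
def block (F : Type u) [Field F] [Module F A] [IsScalarTower F A A] [SMulCommClass F A A]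
    (a : A) : Submodule F A := sInf {J | IsIdealIn (⊤ : Submodule F A) J ∧ a ∈ J}

/-- `I`, as an algebra, is the sum of its proper ideals. -/
def IsDecomposable (I : Submodule F A) : Prop := sSup {J | IsIdealIn I J ∧ J ≠ I} = I

end defs

open Q11.AxBlock in
/-- Over every field `F` with at least four elements there is a primitive axial algebra `(A, X)` of
dimension `4`, for a finite fusion law, with `X` of cardinality `2`, and an axis `a ∈ X` whose
block `I_a` is, as an algebra, the sum of its proper ideals. -/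
theorem result (F : Type u) [Field F] (hF : 4 ≤ Cardinal.mk F) :
    ∃ (A : Type u) (_ : NonUnitalNonAssocCommRing A) (_ : Module F A) (_ : IsScalarTower F A A)
      (_ : SMulCommClass F A A) (L : FusionLaw F) (X : Set A) (a : A),
      Module.finrank F A = 4 ∧ L.carrier.Finite ∧ X.ncard = 2 ∧
      IsPrimitiveAxialAlgebra L X ∧ a ∈ X ∧ IsDecomposable (F := F) (block F a) := by
  classical
  obtain ⟨f⟩ : Nonempty (Fin 4 ↪ F) := by
    have h : Cardinal.lift.{u, 0} (Cardinal.mk (Fin 4)) ≤ Cardinal.lift.{0, u} (Cardinal.mk F) := by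
      simpa using hF
    exact Cardinal.lift_mk_le'.1 h
  obtain ⟨α, ρ, μ, hα, hρ, hμ, hαρ, hαμ, hρμ⟩ : ∃ α ρ μ : F, α ≠ 1 ∧ ρ ≠ 1 ∧ μ ≠ 1 ∧ α ≠ ρ ∧
      α ≠ μ ∧ ρ ≠ μ := by
    have h1 : (Finset.univ.map f).card = 4 := by simp
    have h2 : 2 < ((Finset.univ.map f).erase 1).card := by
      have := Finset.pred_card_le_card_erase (s := Finset.univ.map f) (a := (1 : F))
      omega
    obtain ⟨a, ha, b, hb, c, hc, hab, hac, hbc⟩ := Finset.two_lt_card.1 h2
    exact ⟨a, b, c, Finset.ne_of_mem_erase ha, Finset.ne_of_mem_erase hb,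
      Finset.ne_of_mem_erase hc, hab, hac, hbc⟩
  obtain ⟨l, hl0, hl1⟩ : ∃ l : F, l ≠ 0 ∧ l ≠ 1 := by
    by_cases h : α = 0
    · exact ⟨ρ, by rw [← h]; exact hαρ.symm, hρ⟩
    · exact ⟨α, h, hα⟩
  let p : Par F := ⟨l, α, ρ, μ⟩
  let S : Set F := {1, 0, l, α, ρ, μ}
  let L : FusionLaw F := ⟨S, by simp [S], fun _ _ => S, fun _ _ _ _ => subset_rfl⟩
  let a : B p := vec 1 0 0 0
  let b : B p := vec 0 0 0 1
  have hpl : p.l = l := rfl
  have hpα : p.α = α := rfl
  have hpρ : p.ρ = ρ := rfl
  have hpμ : p.μ = μ := rfl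
  have hab : a ≠ b := by
    intro h
    have := congrFun h 0
    simp [a, b] at this
  -- eigenspaces
  have mem_eig : ∀ (c v : B p) (t : F), v ∈ eig c t ↔ c * v = t • v := fun _ _ _ => Iff.rfl
  have sum_mem : ∀ (c v : B p) (t : F), t ∈ S → c * v = t • v → v ∈ eigSum c S := by
    intro c v t ht hv
    exact Submodule.mem_iSup_of_mem t (Submodule.mem_iSup_of_mem ht hv)
  have htopa : eigSum a S = ⊤ := by
    rw [eq_top_iff]
    intro v _
    have e1 : (vec 1 0 0 0 : B p) ∈ eigSum a S :=
      sum_mem _ _ 1 (by simp [S]) (by apply extB <;> simp [a])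
    have e2 : (vec 0 1 0 0 : B p) ∈ eigSum a S :=
      sum_mem _ _ l (by simp [S]) (by apply extB <;> simp [a, hpl])
    have e3 : (vec 0 0 1 0 : B p) ∈ eigSum a S :=
      sum_mem _ _ 0 (by simp [S]) (by apply extB <;> simp [a])
    have e4 : (vec (-α) (-l⁻¹) 0 1 : B p) ∈ eigSum a S :=
      sum_mem _ _ 0 (by simp [S]) (by apply extB <;> simp [a, hpl, hpα, hl0])
    have hv : v = (v 0 + v 3 * α) • (vec 1 0 0 0 : B p) + (v 1 + v 3 * l⁻¹) • (vec 0 1 0 0 : B p)
        + (v 2) • (vec 0 0 1 0 : B p) + (v 3) • (vec (-α) (-l⁻¹) 0 1 : B p) := by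
      apply extB <;> simp
    rw [hv]
    exact add_mem (add_mem (add_mem (Submodule.smul_mem _ _ e1) (Submodule.smul_mem _ _ e2))
      (Submodule.smul_mem _ _ e3)) (Submodule.smul_mem _ _ e4)
  have h1 : α - ρ ≠ 0 := sub_ne_zero.2 hαρ
  have h2 : α - μ ≠ 0 := sub_ne_zero.2 hαμ
  have h3 : ρ - μ ≠ 0 := sub_ne_zero.2 hρμ
  have htopb : eigSum b S = ⊤ := by
    rw [eq_top_iff]
    intro v _
    have e1 : (vec 0 0 0 1 : B p) ∈ eigSum b S :=
      sum_mem _ _ 1 (by simp [S]) (by apply extB <;> simp [b])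
    have e2 : (vec 0 0 1 0 : B p) ∈ eigSum b S :=
      sum_mem _ _ μ (by simp [S]) (by apply extB <;> simp [b, hpμ])
    have e3 : (vec 0 1 (ρ - μ)⁻¹ 0 : B p) ∈ eigSum b S :=
      sum_mem _ _ ρ (by simp [S]) (by
        apply extB <;> simp [b, hpμ, hpρ]
        field_simp
        ring)
    have e4 : (vec 1 (α - ρ)⁻¹ ((α - ρ)⁻¹ * (α - μ)⁻¹) 0 : B p) ∈ eigSum b S :=
      sum_mem _ _ α (by simp [S]) (by
        apply extB <;> simp [b, hpμ, hpρ, hpα]
        · field_simp
          ring
        · field_simp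
          ring)
    have hv : v = (v 0) • (vec 1 (α - ρ)⁻¹ ((α - ρ)⁻¹ * (α - μ)⁻¹) 0 : B p)
        + (v 1 - v 0 * (α - ρ)⁻¹) • (vec 0 1 (ρ - μ)⁻¹ 0 : B p)
        + (v 2 - v 0 * ((α - ρ)⁻¹ * (α - μ)⁻¹) - (v 1 - v 0 * (α - ρ)⁻¹) * (ρ - μ)⁻¹) •
          (vec 0 0 1 0 : B p) + (v 3) • (vec 0 0 0 1 : B p) := by
      apply extB <;> simp
    rw [hv]
    exact add_mem (add_mem (add_mem (Submodule.smul_mem _ _ e4) (Submodule.smul_mem _ _ e3))
      (Submodule.smul_mem _ _ e2)) (Submodule.smul_mem _ _ e1)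
  have hprima : IsPrimitive F a := by
    apply le_antisymm
    · intro v hv
      rw [mem_eig] at hv
      rw [Submodule.mem_span_singleton]
      have k1 := congrFun hv 1
      have k2 := congrFun hv 2
      have k3 := congrFun hv 3
      simp [a, hpl] at k1 k2 k3
      have hv3 : v 3 = 0 := k3.symm
      have hv2 : v 2 = 0 := k2.symm
      have hv1 : v 1 = 0 := by
        rw [hv3] at k1
        have : (l - 1) * v 1 = 0 := by linear_combination k1
        exact (mul_eq_zero.1 this).resolve_left (sub_ne_zero.2 hl1)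
      exact ⟨v 0, by apply extB <;> simp [a, hv1, hv2, hv3]⟩
    · rw [Submodule.span_singleton_le_iff_mem, mem_eig]
      apply extB <;> simp [a]
  have hprimb : IsPrimitive F b := by
    apply le_antisymm
    · intro v hv
      rw [mem_eig] at hv
      rw [Submodule.mem_span_singleton]
      have k0 := congrFun hv 0
      have k1 := congrFun hv 1
      have k2 := congrFun hv 2
      simp [b, hpα, hpρ, hpμ] at k0 k1 k2
      have hv0 : v 0 = 0 := by
        have : (α - 1) * v 0 = 0 := by linear_combination k0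
        exact (mul_eq_zero.1 this).resolve_left (sub_ne_zero.2 hα)
      have hv1 : v 1 = 0 := by
        rw [hv0] at k1
        have : (ρ - 1) * v 1 = 0 := by linear_combination k1
        exact (mul_eq_zero.1 this).resolve_left (sub_ne_zero.2 hρ)
      have hv2 : v 2 = 0 := by
        rw [hv1] at k2
        have : (μ - 1) * v 2 = 0 := by linear_combination k2
        exact (mul_eq_zero.1 this).resolve_left (sub_ne_zero.2 hμ)
      exact ⟨v 3, by apply extB <;> simp [b, hv0, hv1, hv2]⟩
    · rw [Submodule.span_singleton_le_iff_mem, mem_eig]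
      apply extB <;> simp [b]
  refine ⟨B p, inferInstance, inferInstance, inferInstance, inferInstance, L, {a, b}, a,
    finrankB, ?_, Set.ncard_pair hab, ⟨?_, ?_⟩, by simp, ?_⟩
  · exact Set.toFinite S
  · intro c hc
    have hmem : ∀ (c : B p), eigSum c S = ⊤ → ∀ l ∈ L.carrier, ∀ m ∈ L.carrier, ∀ x ∈ eig c l,
        ∀ y ∈ eig c m, x * y ∈ eigSum c (L.op l m) := by
      intro c hc l _ m _ x _ y _
      have : eigSum c (L.op l m) = ⊤ := hc
      rw [this]; trivial
    rcases hc with rfl | hc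
    · refine ⟨⟨?_, ?_, htopa, hmem _ htopa⟩, hprima⟩
      · intro h; have := congrFun h 0; simp [a] at this
      · apply extB <;> simp [a]
    · rw [Set.mem_singleton_iff] at hc
      subst hc
      refine ⟨⟨?_, ?_, htopb, hmem _ htopb⟩, hprimb⟩
      · intro h; have := congrFun h 3; simp [b] at this
      · apply extB <;> simp [b]
  · rw [eq_top_iff]
    intro v _
    set T := NonUnitalAlgebra.adjoin F ({a, b} : Set (B p)) with hT
    have ha : a ∈ T := NonUnitalAlgebra.subset_adjoin F (by simp)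
    have hb : b ∈ T := NonUnitalAlgebra.subset_adjoin F (by simp)
    have hx : (vec 0 1 0 0 : B p) ∈ T := by
      have h : (vec 0 1 0 0 : B p) = b * a - α • a := by
        apply extB <;> simp [a, b, hpα]
      rw [h]
      exact sub_mem (mul_mem hb ha) (SMulMemClass.smul_mem _ ha)
    have hu : (vec 0 0 1 0 : B p) ∈ T := by
      have h : (vec 0 0 1 0 : B p) = b * vec 0 1 0 0 - ρ • vec 0 1 0 0 := by
        apply extB <;> simp [b, hpρ]
      rw [h]
      exact sub_mem (mul_mem hb hx) (SMulMemClass.smul_mem _ hx)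
    have hv : v = v 0 • a + v 1 • (vec 0 1 0 0 : B p) + v 2 • (vec 0 0 1 0 : B p) + v 3 • b := by
      apply extB <;> simp [a, b]
    rw [hv]
    exact add_mem (add_mem (add_mem (SMulMemClass.smul_mem _ ha) (SMulMemClass.smul_mem _ hx))
      (SMulMemClass.smul_mem _ hu)) (SMulMemClass.smul_mem _ hb)
  · -- the block
    let I : Submodule F (B p) :=
      { carrier := {v | v 3 = 0}
        zero_mem' := rfl
        add_mem' := by
          intro v w hv hw
          show v 3 + w 3 = 0
          rw [hv, hw, add_zero]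
        smul_mem' := by
          intro c v hv
          show c * v 3 = 0
          rw [hv, mul_zero] }
    have hI : block F a = I := by
      apply le_antisymm
      · apply sInf_le
        refine ⟨⟨le_top, ?_⟩, ?_⟩
        · intro v _ w hw
          have hw' : w 3 = 0 := hw
          show (v * w) 3 = 0
          simp [hw']
        · show a 3 = 0
          simp [a]
      · apply le_sInf
        rintro J ⟨⟨-, hJ⟩, haJ⟩ v hv
        have hv3 : v 3 = 0 := hv
        have hx : (vec 0 1 0 0 : B p) ∈ J := by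
          have h : (vec 0 1 0 0 : B p) = b * a - α • a := by
            apply extB <;> simp [a, b, hpα]
          rw [h]
          exact sub_mem (hJ _ trivial _ haJ) (Submodule.smul_mem _ _ haJ)
        have hu : (vec 0 0 1 0 : B p) ∈ J := by
          have h : (vec 0 0 1 0 : B p) = b * vec 0 1 0 0 - ρ • vec 0 1 0 0 := by
            apply extB <;> simp [b, hpρ]
          rw [h]
          exact sub_mem (hJ _ trivial _ hx) (Submodule.smul_mem _ _ hx)
        have hv' : v = v 0 • a + v 1 • (vec 0 1 0 0 : B p) + v 2 • (vec 0 0 1 0 : B p) := by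
          apply extB <;> simp [a, hv3]
        rw [hv']
        exact add_mem (add_mem (Submodule.smul_mem _ _ haJ) (Submodule.smul_mem _ _ hx))
          (Submodule.smul_mem _ _ hu)
    rw [hI]
    let J1 : Submodule F (B p) :=
      { carrier := {v | v 2 = 0 ∧ v 3 = 0}
        zero_mem' := ⟨rfl, rfl⟩
        add_mem' := by
          rintro v w ⟨hv, hv'⟩ ⟨hw, hw'⟩
          exact ⟨by simp [hv, hw], by simp [hv', hw']⟩
        smul_mem' := by
          rintro c v ⟨hv, hv'⟩
          exact ⟨by simp [hv], by simp [hv']⟩ }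
    let J2 : Submodule F (B p) :=
      { carrier := {v | v 0 = 0 ∧ v 1 = 0 ∧ v 3 = 0}
        zero_mem' := ⟨rfl, rfl, rfl⟩
        add_mem' := by
          rintro v w ⟨hv, hv', hv''⟩ ⟨hw, hw', hw''⟩
          exact ⟨by simp [hv, hw], by simp [hv', hw'], by simp [hv'', hw'']⟩
        smul_mem' := by
          rintro c v ⟨hv, hv', hv''⟩
          exact ⟨by simp [hv], by simp [hv'], by simp [hv'']⟩ }
    have hJ1 : IsIdealIn I J1 ∧ J1 ≠ I := by
      refine ⟨⟨fun v hv => hv.2, ?_⟩, ?_⟩
      · intro v hv w hw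
        have hv3 : v 3 = 0 := hv
        exact ⟨by simp [hv3, hw.1, hw.2], by simp [hw.2]⟩
      · intro h
        have : (vec 0 0 1 0 : B p) ∈ J1 := by rw [h]; rfl
        have h2 : (vec 0 0 1 0 : B p) 2 = 0 := this.1
        simp at h2
    have hJ2 : IsIdealIn I J2 ∧ J2 ≠ I := by
      refine ⟨⟨fun v hv => hv.2.2, ?_⟩, ?_⟩
      · intro v hv w hw
        have hv3 : v 3 = 0 := hv
        obtain ⟨w0, w1, w3⟩ := hw
        exact ⟨by simp [hv3, w0, w3], by simp [hv3, w0, w1, w3], by simp [w3]⟩
      · intro h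
        have : (vec 1 0 0 0 : B p) ∈ J2 := by rw [h]; rfl
        have h2 : (vec 1 0 0 0 : B p) 0 = 0 := this.1
        simp at h2
    show sSup {J | IsIdealIn I J ∧ J ≠ I} = I
    apply le_antisymm
    · exact sSup_le fun J hJ => hJ.1.1
    · intro v hv
      have hv3 : v 3 = 0 := hv
      have hv' : v = (vec (v 0) (v 1) 0 0 : B p) + vec 0 0 (v 2) 0 := by
        apply extB <;> simp [hv3]
      rw [hv']
      refine add_mem ?_ ?_
      · exact (le_sSup (a := J1) (show J1 ∈ {J | IsIdealIn I J ∧ J ≠ I} from hJ1)) ⟨rfl, rfl⟩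
      · exact (le_sSup (a := J2) (show J2 ∈ {J | IsIdealIn I J ∧ J ≠ I} from hJ2))
          ⟨rfl, rfl, rfl⟩

end Pool.Agent.Results.MP_89b943_al.DecomposableBlock
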